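import Pool.Agent.Y224.AZ.Stm

/-!
Job AZ-LOG of helper224: logarithms are in the Lie algebra (by helper141).
-/

set_option autoImplicit false

namespace Pool.Agent.Y141.AZ

open Module Polynomial Pool.Agent.H204R3.SP Pool.Agent.Y224.AZ

/-- a multilinear form which is invariant under `F ^ N` vanishes on the tuples of generalized
eigenvectors the product of the eigenvalues of which is not an `N`-th root of unity -/
theorem van {K Y κ : Type} [Field K] [AddCommGroup Y] [Module K Y] [Fintype κ] [DecidableEq κ]
    (φ : MultilinearMap K (fun _ : κ => Y) K) (F : End K Y) (N : ℕ)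
    (hφ : ∀ v : κ → Y, φ (fun k => (F ^ N) (v k)) = φ v) (a : κ → K)
    (ha : (∏ k, a k) ^ N ≠ 1) (n : ℕ) : ∀ (d : κ → ℕ) (y : κ → Y), ∑ k, d k = n →
    (∀ k, aeval F ((X - C (a k)) ^ d k) (y k) = 0) → φ y = 0 := by
  induction n using Nat.strong_induction_on with
  | _ n ih =>
    intro d y hd hy
    by_cases h0 : ∃ k, d k = 0
    · obtain ⟨k, hk⟩ := h0
      have h1 := hy k
      rw [hk, pow_zero, map_one, Module.End.one_apply] at h1
      exact φ.map_coord_zero k h1
    push Not at h0
    have hq : ∀ k, ∃ q : K[X], X ^ N - C (a k) ^ N = (X - C (a k)) * q :=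
      fun k => sub_dvd_pow_sub_pow _ _ _
    choose q hq using hq
    obtain ⟨y', hy'⟩ : ∃ y' : κ → Y, ∀ k, y' k = aeval F ((X - C (a k)) * q k) (y k) :=
      ⟨_, fun k => rfl⟩
    have hG : (fun k => (F ^ N) (y k)) = (fun k => (a k ^ N) • y k) + y' := by
      funext k
      rw [Pi.add_apply, hy', ← hq, map_sub, LinearMap.sub_apply, map_pow, aeval_X, ← C_pow,
        aeval_C, Module.algebraMap_end_apply]
      abel
    have h1 := hφ y
    rw [hG, MultilinearMap.map_add_univ,
      ← Finset.add_sum_erase _ _ (Finset.mem_univ (Finset.univ : Finset κ)),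
      Finset.sum_eq_zero] at h1
    · rw [Finset.piecewise_univ, MultilinearMap.map_smul_univ, add_zero, Finset.prod_pow,
        smul_eq_mul] at h1
      by_contra hne
      exact ha (mul_right_cancel₀ hne (h1.trans (one_mul _).symm))
    · intro s hs
      have hs' : s ≠ Finset.univ := Finset.ne_of_mem_erase hs
      obtain ⟨k0, hk0⟩ : ∃ k0, k0 ∉ s := by
        by_contra hcon
        push Not at hcon
        exact hs' (Finset.eq_univ_iff_forall.2 hcon)
      refine ih (∑ k, (if k ∈ s then d k else d k - 1)) ?_
        (fun k => if k ∈ s then d k else d k - 1) _ rfl ?_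
      · rw [← hd]
        refine Finset.sum_lt_sum (fun k _ => ?_) ⟨k0, Finset.mem_univ _, ?_⟩
        · split_ifs <;> omega
        · rw [if_neg hk0]
          have := h0 k0
          omega
      · intro k
        by_cases hk : k ∈ s
        · rw [if_pos hk, Finset.piecewise_eq_of_mem _ _ _ hk, map_smul, hy k, smul_zero]
        · rw [if_neg hk, Finset.piecewise_eq_of_notMem _ _ _ hk, hy', ← Module.End.mul_apply,
            ← map_mul]
          have h2 : (X - C (a k)) ^ (d k - 1) * ((X - C (a k)) * q k) =
              q k * (X - C (a k)) ^ d k := by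
            have h3 : d k = (d k - 1) + 1 := by have := h0 k; omega
            rw [h3, Nat.add_sub_cancel, pow_succ]
            ring
          rw [h2, map_mul, Module.End.mul_apply, hy k, map_zero]

theorem t_log : Pool.Agent.Y224.AZ.S_LOG := by
  intro K Y Γ _ _ _ _ _ _ _ Q g w z hz m φ hφ
  obtain ⟨Δ, hΔ, hφ⟩ := hφ
  obtain ⟨N, hN, -, hgN⟩ := Subgroup.exists_pow_mem_of_index_ne_zero hΔ.index_ne_zero g
  have hφN : ∀ v : Fin m × Fin 2 → Y, φ (fun k => ((Q g) ^ N) (v k)) = φ v := by
    intro v
    have h1 := hφ _ hgN v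
    rw [MonoidHom.one_apply, one_pow, one_mul, map_pow] at h1
    exact h1
  -- the multilinear form
  obtain ⟨P, hP⟩ : ∃ P : MultilinearMap K (fun _ : Fin m × Fin 2 => Y) K, ∀ v,
      P v = ∑ k, φ (Function.update v k (z (v k))) := by
    refine ⟨∑ k, φ.compLinearMap (Function.update (fun _ => LinearMap.id) k z), fun v => ?_⟩
    rw [MultilinearMap.sum_apply]
    refine Finset.sum_congr rfl fun k _ => ?_
    rw [MultilinearMap.compLinearMap_apply]
    congr 1
    funext j
    by_cases hj : j = k
    · subst hj
      rw [Function.update_self, Function.update_self]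
    · rw [Function.update_of_ne hj, Function.update_of_ne hj, LinearMap.id_apply]
  -- a basis of generalized eigenvectors
  have hspan : (⊤ : Submodule K Y) ≤
      Submodule.span K (⋃ a : K, ((Module.End.maxGenEigenspace (Q g) a : Submodule K Y) : Set Y)) := by
    rw [Submodule.span_iUnion]
    simp only [Submodule.span_eq]
    rw [Module.End.iSup_maxGenEigenspace_eq_top]
  have hP0 : P = 0 := by
    refine Basis.ext_multilinear (fun _ => Basis.ofSpan hspan) fun i => ?_
    obtain ⟨y, hy⟩ : ∃ y : Fin m × Fin 2 → Y, y = fun k => Basis.ofSpan hspan (i k) := ⟨_, rfl⟩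
    change P (fun k => Basis.ofSpan hspan (i k)) = 0
    rw [← hy, hP]
    have h1 : ∀ k, ∃ a : K, y k ∈ Module.End.maxGenEigenspace (Q g) a := by
      intro k
      have h2 := Basis.ofSpan_subset hspan (Set.mem_range_self (i k))
      rw [Set.mem_iUnion] at h2
      rw [hy]
      exact h2
    choose a ha using h1
    have h2 : ∀ k, ∃ d : ℕ, aeval (Q g) ((X - C (a k)) ^ d) (y k) = 0 := by
      intro k
      obtain ⟨d, hd⟩ := (Module.End.mem_maxGenEigenspace _ _ _).1 (ha k)
      refine ⟨d, ?_⟩
      rw [map_pow, map_sub, aeval_X, aeval_C, Algebra.algebraMap_eq_smul_one]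
      exact hd
    choose d hd using h2
    have hinj : Function.Injective (Q g) := fun u v huv => by
      have h3 := congrArg (Q g⁻¹) huv
      rwa [rho_inv, rho_inv] at h3
    by_cases hz0 : ∃ k, y k = 0
    · obtain ⟨k, hk⟩ := hz0
      refine Finset.sum_eq_zero fun j _ => ?_
      refine φ.map_coord_zero k ?_
      by_cases hjk : k = j
      · subst hjk
        rw [Function.update_self, hk, map_zero]
      · rw [Function.update_of_ne hjk, hk]
    push Not at hz0
    have ha0 : ∀ k, a k ≠ 0 := by
      intro k hk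
      have h3 := hd k
      rw [hk, C_0, sub_zero, map_pow, aeval_X] at h3
      have h4 : Function.Injective ((Q g) ^ d k) := by
        rw [Module.End.coe_pow]
        exact hinj.iterate _
      exact hz0 k (h4 (h3.trans (map_zero _).symm))
    have hzy : ∀ k, z (y k) = ((w (Additive.ofMul (Units.mk0 (a k) (ha0 k))) : ℚ) : K) • y k :=
      fun k => hz (Units.mk0 (a k) (ha0 k)) (y k) (ha k)
    have h5 : ∑ k, φ (Function.update y k (z (y k))) =
        ((∑ k, w (Additive.ofMul (Units.mk0 (a k) (ha0 k))) : ℚ) : K) * φ y := by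
      rw [Rat.cast_sum, Finset.sum_mul]
      refine Finset.sum_congr rfl fun k _ => ?_
      rw [hzy, MultilinearMap.map_update_smul, Function.update_eq_self, smul_eq_mul]
    rw [h5]
    by_cases hprod : (∏ k, a k) ^ N = 1
    · have h6 : (∏ k, Units.mk0 (a k) (ha0 k)) ^ N = 1 := by
        apply Units.ext
        rw [Units.val_pow_eq_pow_val, Units.coe_prod, Units.val_one]
        exact hprod
      have h7 : N • ∑ k, w (Additive.ofMul (Units.mk0 (a k) (ha0 k))) = 0 := by
        rw [← map_sum, ← map_nsmul, ← ofMul_prod, ← ofMul_pow, h6, ofMul_one, map_zero]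
      have h8 : ∑ k, w (Additive.ofMul (Units.mk0 (a k) (ha0 k))) = 0 := by
        rw [nsmul_eq_mul, mul_eq_zero] at h7
        exact h7.resolve_left (by exact_mod_cast hN.ne')
      rw [h8, Rat.cast_zero, zero_mul]
    · rw [van φ (Q g) N hφN a hprod _ d y rfl hd, mul_zero]
  intro v
  rw [← hP, hP0, MultilinearMap.zero_apply]

end Pool.Agent.Y141.AZ
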